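import Pool.Agent.H658R2.GD.Lower

/-!
# Counting non-tree edges, vertices near a vertex
-/

set_option autoImplicit false

open Finset

namespace Pool.Agent.H658R2.GD

variable {V : Type} [Fintype V] [DecidableEq V]

section count

variable {G : SimpleGraph V} {par : V → V} {H : Set V} {r : V → ℕ}

open Classical in
/-- Every vertex of `S` is charged to a non-tree edge; a non-tree edge is charged at most `K`
times. -/
theorem count (h1 : ∀ v ∈ H, par v = v)
    (h2 : ∀ v, v ∉ H → G.Adj v (par v) ∧ r v = r (par v) + 1)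
    (S : Finset V) (hS : ∀ v ∈ S, v ∉ H) (Q : V → V → ℕ → Prop)
    [∀ a b, DecidablePred (Q a b)] (K : ℕ)
    (hQ : ∀ a b, ((Icc 1 (r a)).filter (Q a b)).card + ((Icc 1 (r b)).filter (Q b a)).card ≤ K)
    (hcov : ∀ v ∈ S, ∃ a b, (nonTree G par).Adj a b ∧ (∃ j, par^[j] a = v) ∧ Q a b (r v)) :
    S.card ≤ K * (nonTree G par).edgeFinset.card := by
  set F := nonTree G par with hF
  choose! a b hab hj hQv using hcov
  choose! j hj using hj
  set c : V → V → ℕ := fun a b => ((Icc 1 (r a)).filter (Q a b)).card with hc
  -- injection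
  have hinj : S.card ≤ ∑ x : F.Dart, c x.fst x.snd := by
    rw [hc]
    simp only
    rw [← Finset.card_sigma]
    rw [← Finset.card_attach]
    refine Finset.card_le_card_of_injOn
      (fun v => (⟨⟨(a v.1, b v.1), hab v.1 v.2⟩, r v.1⟩ : (_ : F.Dart) × ℕ)) ?_ ?_
    · intro v _
      have h3 := iter_rad h1 h2 (hS v.1 v.2) _ _ (hj v.1 v.2)
      have h4 := (h2 v.1 (hS v.1 v.2)).2
      simp only [Finset.coe_sigma, Set.mem_sigma_iff, Finset.coe_univ, Set.mem_univ, true_and,
        Finset.coe_filter, Finset.mem_Icc, Set.mem_ofPred_eq]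
      exact ⟨⟨by omega, by omega⟩, hQv v.1 v.2⟩
    · intro v _ w _ hvw
      simp only [Sigma.mk.injEq, SimpleGraph.Dart.mk.injEq, Prod.mk.injEq] at hvw
      obtain ⟨⟨h5, h6⟩, h7⟩ := hvw
      have h7 := eq_of_heq h7
      have h3 := iter_rad h1 h2 (hS v.1 v.2) _ _ (hj v.1 v.2)
      have h4 := iter_rad h1 h2 (hS w.1 w.2) _ _ (hj w.1 w.2)
      have h8 : j v.1 = j w.1 := by
        have h9 := h3.2
        have h10 := h4.2
        rw [h5] at h9
        omega
      apply Subtype.ext
      rw [← hj v.1 v.2, ← hj w.1 w.2, h5, h8]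
  have hswap : ∑ x : F.Dart, c x.fst x.snd = ∑ x : F.Dart, c x.snd x.fst := by
    rw [← Equiv.sum_comp (SimpleGraph.Dart.symm_involutive (G := F)).toPerm]
    rfl
  have hsum : 2 * ∑ x : F.Dart, c x.fst x.snd ≤ K * (2 * F.edgeFinset.card) := by
    rw [← F.dart_card_eq_twice_card_edges, two_mul]
    nth_rewrite 2 [hswap]
    rw [← Finset.sum_add_distrib]
    calc ∑ x : F.Dart, (c x.fst x.snd + c x.snd x.fst) ≤ ∑ _x : F.Dart, K :=
          Finset.sum_le_sum fun x _ => hQ _ _
      _ = K * Fintype.card F.Dart := by simp [mul_comm]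
  nlinarith

end count

/-! ### Vertices that can be reached without passing through `H` -/

section reach

variable (G : SimpleGraph V) (H : Set V)

open Classical in
/-- the set with all neighbours of its elements outside `H` -/
noncomputable def step (S : Finset V) : Finset V :=
  S ∪ (S.filter (· ∉ H)).biUnion fun w => G.neighborFinset w

variable {G H}

theorem subset_step (S : Finset V) : S ⊆ step G H S := Finset.subset_union_left

open Classical in
theorem card_step_le {D : ℕ} (hD : ∀ w, w ∉ H → G.degree w ≤ D) (S : Finset V) :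
    (step G H S).card ≤ S.card * (D + 1) := by
  unfold step
  refine (Finset.card_union_le _ _).trans ?_
  have h1 : ((S.filter (· ∉ H)).biUnion fun w => G.neighborFinset w).card ≤ S.card * D := by
    refine (Finset.card_biUnion_le_card_mul _ _ D ?_).trans ?_
    · intro w hw
      rw [SimpleGraph.card_neighborFinset_eq_degree]
      exact hD w (Finset.mem_filter.1 hw).2
    · exact Nat.mul_le_mul_right _ (Finset.card_filter_le _ _)
  linarith [mul_add S.card D 1]

theorem subset_iter (S : Finset V) : ∀ k, S ⊆ (step G H)^[k] S := by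
  intro k
  induction k generalizing S with
  | zero => exact Finset.Subset.refl _
  | succ k ih =>
    rw [Function.iterate_succ_apply]
    exact (subset_step S).trans (ih _)

theorem iter_mono (S : Finset V) {k l : ℕ} (h : k ≤ l) :
    (step G H)^[k] S ⊆ (step G H)^[l] S := by
  obtain ⟨m, rfl⟩ := Nat.exists_eq_add_of_le h
  rw [add_comm, Function.iterate_add_apply]
  exact subset_iter _ m

theorem card_iter_le {D : ℕ} (hD : ∀ w, w ∉ H → (by classical exact G.degree w) ≤ D) (S : Finset V) :
    ∀ k, ((step G H)^[k] S).card ≤ S.card * (D + 1) ^ k := by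
  intro k
  induction k with
  | zero => simp
  | succ k ih =>
    rw [Function.iterate_succ_apply']
    refine (card_step_le hD _).trans ?_
    rw [pow_succ, ← mul_assoc]
    exact Nat.mul_le_mul_right _ ih

theorem mem_iter {u v : V} (p : G.Walk u v) (S : Finset V) (hu : u ∈ S)
    (hp : ∀ x ∈ p.support, x ∉ H) : v ∈ (step G H)^[p.length] S := by
  classical
  induction p generalizing S with
  | nil => simpa using hu
  | @cons u z v h q ih =>
    rw [SimpleGraph.Walk.length_cons, Function.iterate_succ_apply]
    refine ih _ ?_ ?_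
    · unfold step
      refine Finset.mem_union_right _ (Finset.mem_biUnion.2 ⟨u, ?_, ?_⟩)
      · exact Finset.mem_filter.2 ⟨hu, hp u (by simp)⟩
      · simpa using h
    · intro x hx
      exact hp x (by simp [hx])

end reach

end Pool.Agent.H658R2.GD
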