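import Mathlib

/-!
# The lower bound for graphs all of whose edge-deleted subgraphs have diameter at most `d`
-/

set_option autoImplicit false

open Finset

namespace Pool.Agent.H658R2.GD

variable {V : Type}

/-! ### Distance to a set of vertices -/

section rad

variable (G : SimpleGraph V) (H : Set V)

/-- the distance to the set `H` -/
noncomputable def rad (v : V) : ℕ := sInf {l | ∃ w ∈ H, ∃ p : G.Walk v w, p.length = l}

variable {G H}

theorem rad_le {v w : V} (hw : w ∈ H) (p : G.Walk v w) : rad G H v ≤ p.length :=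
  Nat.sInf_le ⟨w, hw, p, rfl⟩

theorem rad_zero {v : V} (hv : v ∈ H) : rad G H v = 0 := by
  have := rad_le (G := G) hv (SimpleGraph.Walk.nil : G.Walk v v)
  simpa using this

theorem rad_spec (hc : ∀ v, ∃ w ∈ H, Nonempty (G.Walk v w)) (v : V) :
    ∃ w ∈ H, ∃ p : G.Walk v w, p.length = rad G H v := by
  have hne : {l | ∃ w ∈ H, ∃ p : G.Walk v w, p.length = l}.Nonempty := by
    obtain ⟨w, hw, ⟨p⟩⟩ := hc v
    exact ⟨p.length, w, hw, p, rfl⟩
  exact Nat.sInf_mem hne

theorem rad_lip (hc : ∀ v, ∃ w ∈ H, Nonempty (G.Walk v w)) {v w : V} (p : G.Walk v w) :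
    rad G H v ≤ p.length + rad G H w := by
  obtain ⟨x, hx, q, hq⟩ := rad_spec hc w
  have := rad_le hx (p.append q)
  rw [SimpleGraph.Walk.length_append] at this
  omega

theorem exists_parent (hc : ∀ v, ∃ w ∈ H, Nonempty (G.Walk v w)) {v : V} (hv : v ∉ H) :
    ∃ w, G.Adj v w ∧ rad G H v = rad G H w + 1 := by
  obtain ⟨x, hx, q, hq⟩ := rad_spec hc v
  cases q with
  | nil => exact absurd hx hv
  | @cons _ u _ h q' =>
    refine ⟨u, h, ?_⟩
    have h1 := rad_le hx q'
    have h2 := rad_lip hc (SimpleGraph.Walk.cons h SimpleGraph.Walk.nil : G.Walk v u)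
    simp only [SimpleGraph.Walk.length_cons, SimpleGraph.Walk.length_nil] at hq h2
    omega

theorem exists_par (hc : ∀ v, ∃ w ∈ H, Nonempty (G.Walk v w)) :
    ∃ par : V → V, (∀ v ∈ H, par v = v) ∧
      ∀ v, v ∉ H → G.Adj v (par v) ∧ rad G H v = rad G H (par v) + 1 := by
  classical
  have key : ∀ v : V, ∃ w, (v ∈ H → w = v) ∧
      (v ∉ H → G.Adj v w ∧ rad G H v = rad G H w + 1) := by
    intro v
    by_cases hv : v ∈ H
    · exact ⟨v, fun _ => rfl, fun h => absurd hv h⟩
    · obtain ⟨w, hw⟩ := exists_parent hc hv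
      exact ⟨w, fun h => absurd h hv, fun _ => hw⟩
  choose par hpar using key
  exact ⟨par, fun v hv => (hpar v).1 hv, fun v hv => (hpar v).2 hv⟩

end rad

/-! ### Non-tree edges -/

section tree

variable (G : SimpleGraph V) (par : V → V)

/-- the edges of `G` which do not belong to the forest of the function `par` -/
def nonTree : SimpleGraph V where
  Adj a b := G.Adj a b ∧ par a ≠ b ∧ par b ≠ a
  symm := ⟨fun _ _ h => ⟨h.1.symm, h.2.2, h.2.1⟩⟩
  loopless := ⟨fun _ h => G.loopless.irrefl _ h.1⟩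

variable {G par} {H : Set V} {r : V → ℕ}

theorem iter_rad (h1 : ∀ v ∈ H, par v = v)
    (h2 : ∀ v, v ∉ H → G.Adj v (par v) ∧ r v = r (par v) + 1) {v : V} (hv : v ∉ H) :
    ∀ (j : ℕ) (a : V), par^[j] a = v → a ∉ H ∧ r a = r v + j := by
  intro j
  induction j with
  | zero =>
    intro a ha
    rw [Function.iterate_zero, id] at ha
    subst ha
    exact ⟨hv, by simp⟩
  | succ j ih =>
    intro a ha
    rw [Function.iterate_succ_apply] at ha
    obtain ⟨h3, h4⟩ := ih _ ha
    have h5 : a ∉ H := by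
      intro h6
      rw [h1 a h6] at h3
      exact h3 h6
    refine ⟨h5, ?_⟩
    have := (h2 a h5).2
    omega

theorem exits {G' : SimpleGraph V} {T : Set V} {x y : V} (q : G'.Walk x y) (hx : x ∈ T)
    (hy : y ∉ T) : ∃ a b, G'.Adj a b ∧ a ∈ T ∧ b ∉ T ∧ ∃ (q1 : G'.Walk x a) (q2 : G'.Walk b y),
      q1.length + 1 + q2.length ≤ q.length := by
  induction q with
  | nil => exact absurd hx hy
  | @cons x z y h q ih =>
    by_cases hz : z ∈ T
    · obtain ⟨a, b, hab, ha, hb, q1, q2, hq⟩ := ih hz hy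
      refine ⟨a, b, hab, ha, hb, SimpleGraph.Walk.cons h q1, q2, ?_⟩
      simp only [SimpleGraph.Walk.length_cons]
      omega
    · refine ⟨x, z, h, hx, hz, SimpleGraph.Walk.nil, q, ?_⟩
      simp only [SimpleGraph.Walk.length_cons, SimpleGraph.Walk.length_nil]
      omega

theorem cover (h1 : ∀ v ∈ H, par v = v)
    (h2 : ∀ v, v ∉ H → G.Adj v (par v) ∧ r v = r (par v) + 1)
    (hlip : ∀ x y (p : G.Walk x y), r x ≤ p.length + r y) (h0 : ∀ x ∈ H, r x = 0)
    {G' : SimpleGraph V} (hG : G' ≤ G) {v w : V} (hv : v ∉ H) (hw : w ∈ H)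
    (hne : ¬ G'.Adj v (par v)) (q : G'.Walk v w) :
    ∃ a b, (nonTree G par).Adj a b ∧ (∃ j, par^[j] a = v) ∧
      r a + r b + 1 ≤ r v + q.length := by
  obtain ⟨a, b, hab, ⟨j, hj⟩, hb, q1, q2, hq⟩ := exits (T := {a | ∃ j, par^[j] a = v}) q
    ⟨0, rfl⟩ (fun ⟨j, hj⟩ => (iter_rad h1 h2 hv j w hj).1 hw)
  refine ⟨a, b, ⟨hG hab, ?_, ?_⟩, ⟨j, hj⟩, ?_⟩
  · intro h
    cases j with
    | zero =>
      rw [Function.iterate_zero, id] at hj
      subst hj
      rw [← h] at hab
      exact hne hab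
    | succ j =>
      rw [Function.iterate_succ_apply, h] at hj
      exact hb ⟨j, hj⟩
  · intro h
    apply hb
    refine ⟨j + 1, ?_⟩
    rw [Function.iterate_succ_apply, h, hj]
  · have h3 := hlip a v (q1.reverse.mapLe hG)
    have h4 := hlip b w (q2.mapLe hG)
    rw [h0 w hw] at h4
    simp only [SimpleGraph.Walk.length_map, SimpleGraph.Walk.length_reverse,
      SimpleGraph.Walk.mapLe] at h3 h4
    omega

end tree

end Pool.Agent.H658R2.GD
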