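import Pool.Agent.H658R2.GD.Count

/-!
# The lower bound
-/

set_option autoImplicit false

open Finset

namespace Pool.Agent.H658R2.GD

variable {V : Type}

/-- The graph `G` and all its subgraphs `G - e`, `e` an edge of `G`, have diameter at most `d`. -/
def EdgeRobust (d : ℕ) (G : SimpleGraph V) : Prop :=
  G.ediam ≤ (d : ℕ∞) ∧ ∀ e ∈ G.edgeSet, (G.deleteEdges {e}).ediam ≤ (d : ℕ∞)

theorem exists_walk {G : SimpleGraph V} {d : ℕ} (h : G.ediam ≤ (d : ℕ∞)) (x y : V) :
    ∃ p : G.Walk x y, p.length ≤ d := by
  have h1 : G.edist x y ≤ (d : ℕ∞) := SimpleGraph.edist_le_ediam.trans h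
  have h2 : G.edist x y ≠ ⊤ := fun h3 => by simp [h3] at h1
  obtain ⟨p, hp⟩ := SimpleGraph.exists_walk_of_edist_ne_top h2
  refine ⟨p, ?_⟩
  rw [← hp] at h1
  exact_mod_cast h1

open Classical in
theorem lower [Fintype V] {d D : ℕ} {G : SimpleGraph V}
    (hG : EdgeRobust d G) :
    (2 * d / 3 + 1) * Fintype.card V ≤ 2 * d / 3 * G.edgeFinset.card +
      (2 * d / 3 + 1) * (univ.filter fun v => D ≤ G.degree v).card +
      (2 * d / 3 + 1) * (D + 1) ^ d := by
  set b := 2 * d / 3 with hb
  set M := (D + 1) ^ d with hM
  set n := Fintype.card V with hn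
  rcases Nat.lt_or_ge M n with hMn | hMn
  swap
  · have := Nat.mul_le_mul_left (b + 1) hMn
    omega
  set H : Set V := {v | D ≤ G.degree v} with hH
  have hdeg : ∀ w, w ∉ H → G.degree w ≤ D := by
    intro w hw
    rw [hH, Set.mem_ofPred_eq] at hw
    omega
  set B : V → Finset V := fun u => (step G H)^[d] {u} with hBdef
  have hB : ∀ u, (B u).card ≤ M := by
    intro u
    have := card_iter_le (G := G) (H := H) (D := D) (fun w hw => by convert hdeg w hw) {u} d
    simpa using this
  have hmem : ∀ {u v : V} (p : G.Walk u v), p.length ≤ d → v ∉ B u → ∃ x ∈ p.support, x ∈ H := by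
    intro u v p hp hv
    by_contra hcon
    push Not at hcon
    exact hv (iter_mono {u} hp (mem_iter p {u} (by simp) hcon))
  have hc : ∀ v, ∃ w ∈ H, Nonempty (G.Walk v w) := by
    intro v
    have h1 : ∃ y, y ∉ B v := by
      by_contra hcon
      push Not at hcon
      have h2 : (univ : Finset V) ⊆ B v := fun y _ => hcon y
      have h3 := Finset.card_le_card h2
      rw [Finset.card_univ] at h3
      have := hB v
      omega
    obtain ⟨y, hy⟩ := h1
    obtain ⟨p, hp⟩ := exists_walk hG.1 v y
    obtain ⟨x, hx, hxH⟩ := hmem p hp hy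
    exact ⟨x, hxH, ⟨p.takeUntil x hx⟩⟩
  obtain ⟨par, hpar1, hpar2⟩ := exists_par hc
  set r := rad G H with hr
  have hlip : ∀ x y (p : G.Walk x y), r x ≤ p.length + r y := fun x y p => rad_lip hc p
  have h0 : ∀ x ∈ H, r x = 0 := fun x hx => rad_zero hx
  -- the level `h`
  obtain ⟨h, hh1, hh2⟩ : ∃ h, M < (univ.filter fun v => h ≤ r v).card ∧
      (univ.filter fun v => h + 1 ≤ r v).card ≤ M := by
    by_contra hcon
    push Not at hcon
    have h1 : ∀ h, M < (univ.filter fun v => h ≤ r v).card := by
      intro h
      induction h with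
      | zero => simpa using hMn
      | succ h ih => exact hcon h ih
    have h2 := h1 (∑ v, r v + 1)
    have h3 : (univ.filter fun v => ∑ v, r v + 1 ≤ r v) = ∅ := by
      rw [Finset.filter_eq_empty_iff]
      intro v _
      have := Finset.single_le_sum (f := r) (fun i _ => Nat.zero_le _) (Finset.mem_univ v)
      omega
    rw [h3] at h2
    simp at h2
  -- the covering edges
  have hcov : ∀ v, v ∉ H → ∃ a b, (nonTree G par).Adj a b ∧ (∃ j, par^[j] a = v) ∧
      r a + r b + 1 + h ≤ r v + d := by
    intro v hv
    obtain ⟨hadj, _⟩ := hpar2 v hv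
    have hG' := hG.2 s(v, par v) hadj
    obtain ⟨y, hy1, hy2⟩ : ∃ y, h ≤ r y ∧ y ∉ B v := by
      by_contra hcon
      push Not at hcon
      have h2 : (univ.filter fun v => h ≤ r v) ⊆ B v := fun y hy =>
        hcon y (Finset.mem_filter.1 hy).2
      have h3 := Finset.card_le_card h2
      have := hB v
      omega
    obtain ⟨q, hq⟩ := exists_walk hG' v y
    have hle : G.deleteEdges {s(v, par v)} ≤ G := SimpleGraph.deleteEdges_le _
    obtain ⟨x, hx, hxH⟩ := hmem (q.mapLe hle) (by simpa [SimpleGraph.Walk.mapLe] using hq) hy2
    have hx' : x ∈ q.support := by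
      simpa [SimpleGraph.Walk.mapLe] using hx
    have h5 : (q.takeUntil x hx').length + (q.dropUntil x hx').length = q.length := by
      rw [← SimpleGraph.Walk.length_append, SimpleGraph.Walk.take_spec]
    have h6 := hlip y x ((q.dropUntil x hx').reverse.mapLe hle)
    rw [h0 x hxH] at h6
    simp only [SimpleGraph.Walk.length_map, SimpleGraph.Walk.length_reverse,
      SimpleGraph.Walk.mapLe] at h6
    obtain ⟨a, b', hab, hj, hlen⟩ := cover hpar1 hpar2 hlip h0 hle hv hxH
      (by simp) (q.takeUntil x hx')
    exact ⟨a, b', hab, hj, by omega⟩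
  -- counting
  have hcount : n ≤ b * (nonTree G par).edgeFinset.card +
      (univ.filter fun v => D ≤ G.degree v).card + M := by
    rcases Nat.lt_or_ge (h + b) d with hcase | hcase
    · -- small `h`
      have h1 := count hpar1 hpar2 (univ.filter fun v => v ∉ H ∧ r v ≤ h)
        (fun v hv => (Finset.mem_filter.1 hv).2.1) (fun _ _ t => t ≤ h) b ?_ ?_
      · have h2 : (univ : Finset V) ⊆ (univ.filter fun v => v ∉ H ∧ r v ≤ h) ∪
            (univ.filter fun v => D ≤ G.degree v) ∪ (univ.filter fun v => h + 1 ≤ r v) := by
          intro v _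
          simp only [Finset.mem_union, Finset.mem_filter, Finset.mem_univ, true_and]
          by_cases hv : v ∈ H
          · left; right; exact hv
          · rcases Nat.lt_or_ge h (r v) with h3 | h3
            · right; omega
            · left; left; exact ⟨hv, h3⟩
        have h3 := Finset.card_le_card h2
        rw [Finset.card_univ] at h3
        have h4 := Finset.card_union_le ((univ.filter fun v => v ∉ H ∧ r v ≤ h) ∪
            (univ.filter fun v => D ≤ G.degree v)) (univ.filter fun v => h + 1 ≤ r v)
        have h5 := Finset.card_union_le (univ.filter fun v => v ∉ H ∧ r v ≤ h)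
            (univ.filter fun v => D ≤ G.degree v)
        omega
      · intro a c
        have h2 : ∀ (x : ℕ) [DecidablePred fun t : ℕ => t ≤ h],
            ((Icc 1 x).filter fun t => t ≤ h).card ≤ h := by
          intro x _
          have : ((Icc 1 x).filter fun t => t ≤ h) ⊆ Icc 1 h := by
            intro t ht
            simp only [Finset.mem_filter, Finset.mem_Icc] at ht ⊢
            omega
          simpa using Finset.card_le_card this
        refine le_trans (add_le_add (h2 (r a)) (h2 (r c))) ?_
        omega
      · intro v hv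
        obtain ⟨hv1, hv2⟩ := (Finset.mem_filter.1 hv).2
        obtain ⟨a, c, hac, hj, _⟩ := hcov v hv1
        exact ⟨a, c, hac, hj, hv2⟩
    · -- large `h`
      have h1 := count hpar1 hpar2 (univ.filter fun v => v ∉ H)
        (fun v hv => (Finset.mem_filter.1 hv).2) (fun a c t => r a + r c + 1 + h ≤ t + d) b ?_ ?_
      · have h2 : (univ : Finset V) ⊆ (univ.filter fun v => v ∉ H) ∪
            (univ.filter fun v => D ≤ G.degree v) := by
          intro v _
          simp only [Finset.mem_union, Finset.mem_filter, Finset.mem_univ, true_and]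
          by_cases hv : v ∈ H
          · right; exact hv
          · left; exact hv
        have h3 := Finset.card_le_card h2
        rw [Finset.card_univ] at h3
        have h5 := Finset.card_union_le (univ.filter fun v => v ∉ H)
            (univ.filter fun v => D ≤ G.degree v)
        omega
      · intro a c
        have h2 : ∀ (x y : ℕ) [DecidablePred fun t : ℕ => x + y + 1 + h ≤ t + d],
            ((Icc 1 x).filter fun t => x + y + 1 + h ≤ t + d).card ≤
            x + 1 - max 1 (x + y + 1 + h - d) := by
          intro x y _
          have : ((Icc 1 x).filter fun t => x + y + 1 + h ≤ t + d) ⊆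
              Icc (max 1 (x + y + 1 + h - d)) x := by
            intro t ht
            simp only [Finset.mem_filter, Finset.mem_Icc] at ht ⊢
            omega
          simpa using Finset.card_le_card this
        refine le_trans (add_le_add (h2 (r a) (r c)) (h2 (r c) (r a))) ?_
        omega
      · intro v hv
        exact hcov v (Finset.mem_filter.1 hv).2
  -- tree edges
  have htree : (univ.filter fun v => v ∉ H).card + (nonTree G par).edgeFinset.card ≤
      G.edgeFinset.card := by
    rw [← Finset.card_image_of_injOn (s := univ.filter fun v => v ∉ H) (f := fun v => s(v, par v)),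
      ← Finset.card_union_of_disjoint]
    · refine Finset.card_le_card (Finset.union_subset ?_ ?_)
      · intro e he
        obtain ⟨v, hv, rfl⟩ := Finset.mem_image.1 he
        rw [SimpleGraph.mem_edgeFinset]
        exact (hpar2 v (Finset.mem_filter.1 hv).2).1
      · intro e he
        rw [SimpleGraph.mem_edgeFinset] at he ⊢
        have : nonTree G par ≤ G := fun a c h => h.1
        exact SimpleGraph.edgeSet_mono this he
    · rw [Finset.disjoint_left]
      intro e he he'
      obtain ⟨v, hv, rfl⟩ := Finset.mem_image.1 he
      rw [SimpleGraph.mem_edgeFinset] at he'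
      exact he'.2.1 rfl
    · intro v hv w hw hvw
      rcases Sym2.eq_iff.1 hvw with ⟨h1, _⟩ | ⟨h1, h2⟩
      · exact h1
      · exfalso
        have h3 := (hpar2 v (Finset.mem_filter.1 hv).2).2
        have h4 := (hpar2 w (Finset.mem_filter.1 hw).2).2
        rw [h2] at h3
        rw [← h1] at h4
        omega
  have hsplit : n ≤ (univ.filter fun v => v ∉ H).card +
      (univ.filter fun v => D ≤ G.degree v).card := by
    have h2 : (univ : Finset V) ⊆ (univ.filter fun v => v ∉ H) ∪
        (univ.filter fun v => D ≤ G.degree v) := by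
      intro v _
      simp only [Finset.mem_union, Finset.mem_filter, Finset.mem_univ, true_and]
      by_cases hv : v ∈ H
      · right; exact hv
      · left; exact hv
    have h3 := Finset.card_le_card h2
    rw [Finset.card_univ] at h3
    exact h3.trans (Finset.card_union_le _ _)
  set t := (univ.filter fun v => D ≤ G.degree v).card
  set u := (univ.filter fun v => v ∉ H).card
  have h7 := Nat.mul_le_mul_left b htree
  have h8 := Nat.mul_le_mul_left b hsplit
  have h9 : M ≤ (b + 1) * M := Nat.le_mul_of_pos_left _ (by omega)
  nlinarith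

end Pool.Agent.H658R2.GD
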