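import Pool.Agent.H658R2.GD.LowerMain

/-!
# The construction: cycles with a common vertex
-/

set_option autoImplicit false

open Finset

namespace Pool.Agent.H658R2.GD

section walks

variable {V : Type} {G : SimpleGraph V}

/-- There is a walk of length at most `k` from `x` to `y` that avoids the edge `e`. -/
def RE (G : SimpleGraph V) (e : Sym2 V) (k : ℕ) (x y : V) : Prop :=
  ∃ p : G.Walk x y, e ∉ p.edges ∧ p.length ≤ k

theorem RE.refl (e : Sym2 V) (x : V) : RE G e 0 x x :=
  ⟨SimpleGraph.Walk.nil, by simp, by simp⟩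

theorem RE.edge {e : Sym2 V} {x y : V} (h : G.Adj x y) (he : s(x, y) ≠ e) : RE G e 1 x y :=
  ⟨h.toWalk, by simpa using he.symm, by simp⟩

theorem RE.trans {e : Sym2 V} {x y z : V} {k l : ℕ} (h1 : RE G e k x y) (h2 : RE G e l y z) :
    RE G e (k + l) x z := by
  obtain ⟨p, hp, hk⟩ := h1
  obtain ⟨q, hq, hl⟩ := h2
  refine ⟨p.append q, ?_, ?_⟩
  · rw [SimpleGraph.Walk.edges_append, List.mem_append]
    tauto
  · rw [SimpleGraph.Walk.length_append]; omega

theorem RE.symm {e : Sym2 V} {x y : V} {k : ℕ} (h : RE G e k x y) : RE G e k y x := by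
  obtain ⟨p, hp, hk⟩ := h
  exact ⟨p.reverse, by simpa using hp, by simpa using hk⟩

theorem RE.mono {e : Sym2 V} {x y : V} {k l : ℕ} (h : RE G e k x y) (hkl : k ≤ l) :
    RE G e l x y := by
  obtain ⟨p, hp, hk⟩ := h
  exact ⟨p, hp, hk.trans hkl⟩

theorem RE.path {e : Sym2 V} (f : ℕ → V) (a k : ℕ)
    (hadj : ∀ j, a ≤ j → j < a + k → G.Adj (f j) (f (j + 1)))
    (hne : ∀ j, a ≤ j → j < a + k → s(f j, f (j + 1)) ≠ e) : RE G e k (f a) (f (a + k)) := by
  induction k with
  | zero => exact RE.refl _ _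
  | succ k ih =>
    have h1 := ih (fun j h1 h2 => hadj j h1 (by omega)) (fun j h1 h2 => hne j h1 (by omega))
    exact h1.trans (RE.edge (hadj (a + k) (by omega) (by omega)) (hne _ (by omega) (by omega)))

theorem robust_of_re {W : Type} {G' : SimpleGraph W} (φ : G ≃g G') {d : ℕ}
    (h : ∀ e x y, RE G e d x y) : EdgeRobust d G' := by
  have key : ∀ (e : Sym2 W) (x y : W), ∃ p : G'.Walk x y, e ∉ p.edges ∧ p.length ≤ d := by
    intro e x y
    obtain ⟨x, rfl⟩ := φ.surjective x
    obtain ⟨y, rfl⟩ := φ.surjective y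
    obtain ⟨p, hp, hk⟩ := h (e.map φ.symm) x y
    refine ⟨p.map φ.toHom, ?_, by simpa using hk⟩
    intro he
    rw [SimpleGraph.Walk.edges_map, List.mem_map] at he
    obtain ⟨e', he', rfl⟩ := he
    apply hp
    rw [Sym2.map_map]
    have : (⇑φ.symm ∘ ⇑φ.toHom) = id := by
      funext x
      simp
    rw [this, Sym2.map_id]
    exact he'
  constructor
  · refine SimpleGraph.ediam_le_of_edist_le fun x y => ?_
    obtain ⟨p, _, hk⟩ := key s(x, x) x y
    refine (SimpleGraph.Walk.edist_le p).trans ?_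
    exact_mod_cast hk
  · intro e _
    refine SimpleGraph.ediam_le_of_edist_le fun x y => ?_
    obtain ⟨p, hp, hk⟩ := key e x y
    refine (SimpleGraph.Walk.edist_le (p.toDeleteEdge e hp)).trans ?_
    rw [SimpleGraph.Walk.toDeleteEdge, SimpleGraph.Walk.toDeleteEdges,
      SimpleGraph.Walk.length_transfer]
    exact_mod_cast hk

end walks

section construction

/-- The vertices: the common vertex, `q + 1` cycles with `b` further vertices, and `t` extra
vertices. -/
abbrev Vx (q b t : ℕ) := Option ((Fin (q + 1) × Fin b) ⊕ Fin t)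

variable {q b t : ℕ}

/-- the vertices of the `j`-th cycle -/
def cv (j : Fin (q + 1)) (i : ℕ) : Vx q b t :=
  if h : 1 ≤ i ∧ i ≤ b then some (Sum.inl (j, ⟨i - 1, by omega⟩)) else none

def ext (w : Fin t) : Vx q b t := some (Sum.inr w)

def Rel (q b t : ℕ) : Vx q b t → Vx q b t → Prop
  | some (Sum.inl (_, i)), none => i.val = 0 ∨ i.val + 1 = b
  | some (Sum.inl (j, i)), some (Sum.inl (j', i')) => j = j' ∧ i.val + 1 = i'.val
  | some (Sum.inr _), none => True
  | some (Sum.inr _), some (Sum.inl (j, i)) => j.val = 0 ∧ i.val = 0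
  | _, _ => False

/-- The graph. -/
def Gr (q b t : ℕ) : SimpleGraph (Vx q b t) := SimpleGraph.fromRel (Rel q b t)

theorem cv_zero (j : Fin (q + 1)) : cv (b := b) (t := t) j 0 = none := by simp [cv]

theorem cv_last (j : Fin (q + 1)) : cv (b := b) (t := t) j (b + 1) = none := by simp [cv]

theorem cv_mid (j : Fin (q + 1)) {i : ℕ} (h1 : 1 ≤ i) (h2 : i ≤ b) :
    cv (b := b) (t := t) j i = some (Sum.inl (j, ⟨i - 1, by omega⟩)) := by
  rw [cv, dif_pos ⟨h1, h2⟩]

theorem cv_eq_none {j : Fin (q + 1)} {i : ℕ} (h : cv (b := b) (t := t) j i = none) :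
    i = 0 ∨ b < i := by
  unfold cv at h
  split_ifs at h with h1
  omega

theorem cv_inj {j j' : Fin (q + 1)} {i i' : ℕ} (h1 : 1 ≤ i) (h2 : i ≤ b)
    (h : cv (b := b) (t := t) j i = cv j' i') : j = j' ∧ i = i' := by
  rw [cv_mid j h1 h2] at h
  unfold cv at h
  split_ifs at h with h3
  · simp only [Option.some.injEq, Sum.inl.injEq, Prod.mk.injEq, Fin.mk.injEq] at h
    exact ⟨h.1, by omega⟩

theorem cv_ne_ext (j : Fin (q + 1)) (i : ℕ) (w : Fin t) : cv (b := b) j i ≠ ext w := by
  unfold cv ext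
  split_ifs <;> simp

theorem adj_cv (hb : 2 ≤ b) (j : Fin (q + 1)) {i : ℕ} (hi : i ≤ b) :
    (Gr q b t).Adj (cv j i) (cv j (i + 1)) := by
  rw [Gr, SimpleGraph.fromRel_adj]
  rcases Nat.eq_zero_or_pos i with rfl | h0
  · rw [cv_zero, cv_mid j (le_refl 1) (by omega)]
    refine ⟨by simp, Or.inr ?_⟩
    simp [Rel]
  · rcases Nat.lt_or_ge i b with h1 | h1
    · rw [cv_mid j h0 hi, cv_mid j (by omega) (by omega)]
      refine ⟨?_, Or.inl ?_⟩
      · simp only [ne_eq, Option.some.injEq, Sum.inl.injEq, Prod.mk.injEq, Fin.mk.injEq,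
          true_and]
        omega
      · simp only [Rel, true_and]
        omega
    · obtain rfl : i = b := by omega
      rw [cv_last, cv_mid j h0 hi]
      refine ⟨by simp, Or.inl ?_⟩
      simp only [Rel]
      omega

theorem adj_ext (w : Fin t) : (Gr q b t).Adj (ext w) none := by
  rw [Gr, SimpleGraph.fromRel_adj]
  exact ⟨by simp [ext], Or.inl (by simp [ext, Rel])⟩

theorem adj_ext_one (hb : 2 ≤ b) (w : Fin t) : (Gr q b t).Adj (ext w) (cv 0 1) := by
  rw [Gr, SimpleGraph.fromRel_adj, cv_mid 0 (le_refl 1) (by omega)]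
  exact ⟨by simp [ext], Or.inl (by simp [ext, Rel])⟩

/-- the edges of the cycles are different -/
theorem cedge_inj (hb : 2 ≤ b) {j j' : Fin (q + 1)} {i i' : ℕ} (hi : i ≤ b) (hi' : i' ≤ b)
    (h : s(cv (b := b) (t := t) j i, cv j (i + 1)) = s(cv j' i', cv j' (i' + 1))) :
    j = j' ∧ i = i' := by
  rcases Sym2.eq_iff.1 h with ⟨h1, h2⟩ | ⟨h1, h2⟩
  · rcases Nat.eq_zero_or_pos i with rfl | h0
    · rw [cv_zero] at h1
      have h3 := cv_eq_none h1.symm
      have h4 := cv_inj (by omega) (by omega) h2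
      exact ⟨h4.1, by omega⟩
    · exact cv_inj h0 hi h1
  · exfalso
    rcases Nat.eq_zero_or_pos i with rfl | h0
    · rw [cv_zero] at h1
      have h3 := cv_eq_none h1.symm
      have h4 := cv_inj (by omega) (by omega) h2
      omega
    · have h3 := cv_inj h0 hi h1
      rcases Nat.lt_or_ge i b with h5 | h5
      · have h4 := cv_inj (by omega) (by omega) h2
        omega
      · obtain rfl : i = b := by omega
        rw [cv_last] at h2
        have h6 := cv_eq_none h2.symm
        omega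

/-- `e` is an edge of the `j`-th cycle -/
def InC (e : Sym2 (Vx q b t)) (j : Fin (q + 1)) : Prop := ∃ m ≤ b, s(cv j m, cv j (m + 1)) = e

theorem re_seg (hb : 2 ≤ b) {e : Sym2 (Vx q b t)} (j : Fin (q + 1)) {i l : ℕ} (hil : i ≤ l)
    (hl : l ≤ b + 1) (hne : ∀ m, i ≤ m → m < l → s(cv j m, cv j (m + 1)) ≠ e) :
    RE (Gr q b t) e (l - i) (cv j i) (cv j l) := by
  have h := RE.path (G := Gr q b t) (e := e) (fun m => cv j m) i (l - i)
    (fun m h1 h2 => adj_cv hb j (by omega)) (fun m h1 h2 => hne m h1 (by omega))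
  simpa [Nat.add_sub_cancel' hil] using h

theorem re_cv (hb : 2 ≤ b) (e : Sym2 (Vx q b t)) (j : Fin (q + 1)) {i l : ℕ} (h1 : 1 ≤ i)
    (hil : i ≤ l) (hl : l ≤ b) : RE (Gr q b t) e b (cv j i) (cv j l) := by
  by_cases h : ∃ m, i ≤ m ∧ m < l ∧ s(cv j m, cv j (m + 1)) = e
  · obtain ⟨m, hm1, hm2, hm3⟩ := h
    have hne : ∀ m', m' ≤ b → m' ≠ m → s(cv (b := b) (t := t) j m', cv j (m' + 1)) ≠ e := by
      intro m' h2 h3 h4
      rw [← hm3] at h4
      exact h3 (cedge_inj hb h2 (by omega) h4).2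
    have h2 := re_seg hb (e := e) j (i := 0) (l := i) (by omega) (by omega)
      (fun m' h3 h4 => hne m' (by omega) (by omega))
    have h3 := re_seg hb (e := e) j (i := l) (l := b + 1) (by omega) (by omega)
      (fun m' h3 h4 => hne m' (by omega) (by omega))
    rw [cv_zero] at h2
    rw [cv_last] at h3
    exact (h2.symm.trans h3.symm).mono (by omega)
  · push Not at h
    exact (re_seg hb (e := e) j hil (by omega) (fun m h2 h3 => h m h2 h3)).mono (by omega)

theorem re_far (hb : 2 ≤ b) (e : Sym2 (Vx q b t)) (j : Fin (q + 1)) {i : ℕ} (h1 : 1 ≤ i)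
    (h2 : i ≤ b) : RE (Gr q b t) e b (cv j i) none := by
  by_cases h : ∃ m, m < i ∧ s(cv j m, cv j (m + 1)) = e
  · obtain ⟨m, hm2, hm3⟩ := h
    have h3 := re_seg hb (e := e) j (i := i) (l := b + 1) (by omega) (by omega)
      (fun m' h3 h4 h5 => by
        rw [← hm3] at h5
        have := (cedge_inj hb (by omega) (by omega) h5).2
        omega)
    rw [cv_last] at h3
    exact h3.mono (by omega)
  · push Not at h
    have h3 := re_seg hb (e := e) j (i := 0) (l := i) (by omega) (by omega)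
      (fun m' h3 h4 => h m' (by omega))
    rw [cv_zero] at h3
    exact h3.symm.mono (by omega)

theorem re_near (hb : 2 ≤ b) {e : Sym2 (Vx q b t)} (j : Fin (q + 1)) (he : ¬ InC e j) {i : ℕ}
    (h1 : 1 ≤ i) (h2 : i ≤ b) : RE (Gr q b t) e ((b + 1) / 2) (cv j i) none := by
  have hne : ∀ m, m ≤ b → s(cv (b := b) (t := t) j m, cv j (m + 1)) ≠ e :=
    fun m hm h => he ⟨m, hm, h⟩
  rcases Nat.lt_or_ge ((b + 1) / 2) i with h3 | h3
  · have h4 := re_seg hb (e := e) j (i := i) (l := b + 1) (by omega) (by omega)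
      (fun m' h3 h4 => hne m' (by omega))
    rw [cv_last] at h4
    exact h4.mono (by omega)
  · have h4 := re_seg hb (e := e) j (i := 0) (l := i) (by omega) (by omega)
      (fun m' h3 h4 => hne m' (by omega))
    rw [cv_zero] at h4
    exact h4.symm.mono (by omega)

/-- `e` is an edge at the extra vertex `w` -/
def InX (e : Sym2 (Vx q b t)) (w : Fin t) : Prop := s(ext w, none) = e ∨ s(ext w, cv 0 1) = e

theorem re_ext_far (hb : 2 ≤ b) (e : Sym2 (Vx q b t)) (w : Fin t) :
    RE (Gr q b t) e 2 (ext w) none := by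
  by_cases h : s(ext w, none) = e
  · have h1 : s(ext w, cv 0 1) ≠ e := by
      intro h2
      rw [← h] at h2
      rcases Sym2.eq_iff.1 h2 with ⟨_, h3⟩ | ⟨h3, _⟩
      · have := cv_eq_none h3
        omega
      · simp [ext] at h3
    have h2 : s(cv (b := b) (t := t) (0 : Fin (q + 1)) 0, cv 0 1) ≠ e := by
      intro h2
      rw [← h] at h2
      rcases Sym2.eq_iff.1 h2 with ⟨h3, _⟩ | ⟨_, h3⟩
      · exact cv_ne_ext _ _ _ h3
      · exact cv_ne_ext _ _ _ h3
    have h3 := RE.edge (adj_cv (t := t) hb (0 : Fin (q + 1)) (i := 0) (by omega)) h2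
    rw [cv_zero] at h3
    exact (RE.edge (adj_ext_one hb w) h1).trans h3.symm
  · exact (RE.edge (adj_ext w) h).mono (by omega)

theorem re_ext_near {e : Sym2 (Vx q b t)} {w : Fin t} (h : ¬ InX e w) :
    RE (Gr q b t) e 1 (ext w) none :=
  RE.edge (adj_ext w) fun h' => h (Or.inl h')

theorem not_inX_of_inC {e : Sym2 (Vx q b t)} {j : Fin (q + 1)} {w : Fin t} (h : InC e j) :
    ¬ InX e w := by
  obtain ⟨m, _, rfl⟩ := h
  rintro (h | h)
  · rcases Sym2.eq_iff.1 h with ⟨h3, _⟩ | ⟨h3, _⟩
    · exact cv_ne_ext _ _ _ h3.symm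
    · exact cv_ne_ext _ _ _ h3.symm
  · rcases Sym2.eq_iff.1 h with ⟨h3, _⟩ | ⟨h3, _⟩
    · exact cv_ne_ext _ _ _ h3.symm
    · exact cv_ne_ext _ _ _ h3.symm

theorem not_inX_of_inX {e : Sym2 (Vx q b t)} {w w' : Fin t} (hw : w ≠ w') (h : InX e w) :
    ¬ InX e w' := by
  intro h'
  have h1 : (ext w : Vx q b t) ∈ e := by
    rcases h with rfl | rfl <;> simp
  rcases h' with rfl | rfl
  · rcases Sym2.mem_iff.1 h1 with h2 | h2
    · exact hw (by simpa [ext] using h2)
    · simp [ext] at h2
  · rcases Sym2.mem_iff.1 h1 with h2 | h2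
    · exact hw (by simpa [ext] using h2)
    · exact cv_ne_ext _ _ _ h2.symm

theorem vx_cases (x : Vx q b t) : x = none ∨ (∃ (j : Fin (q + 1)) (i : ℕ), 1 ≤ i ∧ i ≤ b ∧
    x = cv j i) ∨ ∃ w, x = ext w := by
  rcases x with _ | ⟨⟨j, i⟩ | w⟩
  · exact Or.inl rfl
  · refine Or.inr (Or.inl ⟨j, i.val + 1, by omega, by omega, ?_⟩)
    rw [cv_mid j (by omega) (by omega)]
    simp
  · exact Or.inr (Or.inr ⟨w, rfl⟩)

theorem re_all {d : ℕ} (hd : 3 ≤ d) (e : Sym2 (Vx q (2 * d / 3) t)) (x y : Vx q (2 * d / 3) t) :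
    RE (Gr q (2 * d / 3) t) e d x y := by
  have hb : 2 ≤ 2 * d / 3 := by omega
  have hbd : 2 * d / 3 + (2 * d / 3 + 1) / 2 ≤ d := by omega
  generalize 2 * d / 3 = b at *
  rcases vx_cases x with rfl | ⟨j, i, hi1, hi2, rfl⟩ | ⟨w, rfl⟩
  · rcases vx_cases y with rfl | ⟨j', i', hi1', hi2', rfl⟩ | ⟨w', rfl⟩
    · exact (RE.refl _ _).mono (by omega)
    · exact (re_far hb e j' hi1' hi2').symm.mono (by omega)
    · exact (re_ext_far hb e w').symm.mono (by omega)
  · rcases vx_cases y with rfl | ⟨j', i', hi1', hi2', rfl⟩ | ⟨w', rfl⟩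
    · exact (re_far hb e j hi1 hi2).mono (by omega)
    · by_cases hj : j = j'
      · subst hj
        rcases Nat.le_total i i' with h | h
        · exact (re_cv hb e j hi1 h hi2').mono (by omega)
        · exact (re_cv hb e j hi1' h hi2).symm.mono (by omega)
      · by_cases he : InC e j
        · have he' : ¬ InC e j' := by
            rintro ⟨m', hm', h'⟩
            obtain ⟨m, hm, h⟩ := he
            rw [← h] at h'
            exact hj (cedge_inj hb hm' hm h').1.symm
          exact ((re_far hb e j hi1 hi2).trans (re_near hb j' he' hi1' hi2').symm).mono (by omega)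
        · exact ((re_near hb j he hi1 hi2).trans (re_far hb e j' hi1' hi2').symm).mono (by omega)
    · by_cases he : InC e j
      · exact ((re_far hb e j hi1 hi2).trans
          (re_ext_near (not_inX_of_inC (w := w') he)).symm).mono (by omega)
      · exact ((re_near hb j he hi1 hi2).trans (re_ext_far hb e w').symm).mono (by omega)
  · rcases vx_cases y with rfl | ⟨j', i', hi1', hi2', rfl⟩ | ⟨w', rfl⟩
    · exact (re_ext_far hb e w).mono (by omega)
    · by_cases he : InC e j'
      · exact ((re_ext_near (not_inX_of_inC (w := w) he)).trans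
          (re_far hb e j' hi1' hi2').symm).mono (by omega)
      · exact ((re_ext_far hb e w).trans (re_near hb j' he hi1' hi2').symm).mono (by omega)
    · by_cases hw : w = w'
      · subst hw
        exact (RE.refl _ _).mono (by omega)
      · by_cases he : InX e w
        · exact ((re_ext_far hb e w).trans
            (re_ext_near (not_inX_of_inX hw he)).symm).mono (by omega)
        · exact ((re_ext_near he).trans (re_ext_far hb e w').symm).mono (by omega)

/-- all edges -/
def edgeFn (q b t : ℕ) : (Fin (q + 1) × Fin (b + 1)) ⊕ (Fin t × Bool) → Sym2 (Vx q b t)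
  | Sum.inl (j, i) => s(cv j i, cv j (i + 1))
  | Sum.inr (w, false) => s(ext w, none)
  | Sum.inr (w, true) => s(ext w, cv 0 1)

theorem rel_edge (hb : 2 ≤ b) {x y : Vx q b t} (h : Rel q b t x y) :
    s(x, y) ∈ Set.range (edgeFn q b t) := by
  rcases x with _ | ⟨⟨j, i⟩ | w⟩
  · simp [Rel] at h
  · rcases y with _ | ⟨⟨j', i'⟩ | w'⟩
    · simp only [Rel] at h
      rcases h with h | h
      · refine ⟨Sum.inl (j, 0), ?_⟩
        simp only [edgeFn, Fin.val_zero]
        rw [cv_zero, cv_mid j (by omega) (by omega), Sym2.eq_swap]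
        congr 4
        apply Fin.ext
        simp [h]
      · refine ⟨Sum.inl (j, Fin.last b), ?_⟩
        simp only [edgeFn, Fin.val_last]
        rw [cv_last, cv_mid j (by omega) le_rfl]
        congr 4
        apply Fin.ext
        simp only
        omega
    · simp only [Rel] at h
      obtain ⟨rfl, h⟩ := h
      refine ⟨Sum.inl (j, ⟨i.val + 1, by omega⟩), ?_⟩
      simp only [edgeFn]
      rw [cv_mid j (by omega) (by omega), cv_mid j (by omega) (by omega)]
      congr 4
      apply Fin.ext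
      simp only
      omega
    · simp [Rel] at h
  · rcases y with _ | ⟨⟨j', i'⟩ | w'⟩
    · exact ⟨Sum.inr (w, false), rfl⟩
    · simp only [Rel] at h
      refine ⟨Sum.inr (w, true), ?_⟩
      simp only [edgeFn]
      rw [cv_mid 0 (by omega) (by omega)]
      congr 4
      · apply Fin.ext
        simp [h.1]
      · apply Fin.ext
        simp [h.2]
    · simp [Rel] at h

theorem ncard_edgeSet_le (hb : 2 ≤ b) :
    (Gr q b t).edgeSet.ncard ≤ (q + 1) * (b + 1) + t * 2 := by
  have h1 : (Gr q b t).edgeSet ⊆ Set.range (edgeFn q b t) := by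
    intro e
    induction e with
    | _ x y =>
      intro he
      rw [SimpleGraph.mem_edgeSet, Gr, SimpleGraph.fromRel_adj] at he
      rcases he.2 with h | h
      · exact rel_edge hb h
      · rw [Sym2.eq_swap]
        exact rel_edge hb h
  refine (Set.ncard_le_ncard h1 (Set.finite_range _)).trans ?_
  rw [← Set.image_univ]
  refine (Set.ncard_image_le Set.finite_univ).trans ?_
  rw [Set.ncard_univ, Nat.card_eq_fintype_card]
  simp

end construction

end Pool.Agent.H658R2.GD
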